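import Pool.Agent.H643.AS.Unr

set_option autoImplicit false
set_option linter.unusedSectionVars false
set_option linter.deprecated false

/-!
# Task AS 7 (helper643, for helper500): Galois characters are ray class characters
-/

namespace Pool.Agent.H643.AS.Bridge

open NumberField IsDedekindDomain Pool.Agent.Q5.BR Pool.Agent.Q92.AR Pool.Agent.Q92.PA
open Pool.Agent.W353.NF
open Pool.Agent.W401.Cheb (GK IsFrob IsInert)
open Pool.Agent.H500.HC (InRay IsRayChar TotPos)
open UniqueFactorizationMonoid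

section chi
variable {K : Type} [Field K] [NumberField K] {k : Type} [Field k]

open scoped Classical in
/-- a function of the primes, `0` at the divisors of `N` -/
noncomputable def cf (N : ℕ) (u : HeightOneSpectrum (𝓞 K) → k) (P : Ideal (𝓞 K)) : k :=
  if h : P.IsPrime ∧ P ≠ ⊥ ∧ (N : 𝓞 K) ∉ P then u ⟨P, h.1, h.2.1⟩ else 0

open scoped Classical in
/-- the multiplicative function with the values `u` at the primes not dividing `N` -/
noncomputable def chi (N : ℕ) (u : HeightOneSpectrum (𝓞 K) → k) : Ideal (𝓞 K) →*₀ k where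
  toFun 𝔞 := if 𝔞 = 0 then 0 else ((normalizedFactors 𝔞).map (cf N u)).prod
  map_zero' := if_pos rfl
  map_one' := by
    rw [if_neg one_ne_zero, normalizedFactors_one, Multiset.map_zero, Multiset.prod_zero]
  map_mul' 𝔞 𝔟 := by
    by_cases ha : 𝔞 = 0
    · rw [ha, zero_mul, if_pos rfl, zero_mul]
    by_cases hb : 𝔟 = 0
    · rw [hb, mul_zero, if_pos rfl, mul_zero]
    rw [if_neg (mul_ne_zero ha hb), if_neg ha, if_neg hb, normalizedFactors_mul ha hb,
      Multiset.map_add, Multiset.prod_add]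

theorem chi_of_notMem {N : ℕ} (u : HeightOneSpectrum (𝓞 K) → k) {v : HeightOneSpectrum (𝓞 K)}
    (hv : (N : 𝓞 K) ∉ v.asIdeal) : chi N u v.asIdeal = u v := by
  classical
  have h1 : chi N u v.asIdeal = ((normalizedFactors v.asIdeal).map (cf N u)).prod := if_neg v.ne_bot
  rw [h1, normalizedFactors_irreducible v.irreducible, normalize_eq, Multiset.map_singleton,
    Multiset.prod_singleton]
  exact dif_pos ⟨v.isPrime, v.ne_bot, hv⟩

theorem chi_of_mem {N : ℕ} (u : HeightOneSpectrum (𝓞 K) → k) {v : HeightOneSpectrum (𝓞 K)}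
    (hv : (N : 𝓞 K) ∈ v.asIdeal) : chi N u v.asIdeal = 0 := by
  classical
  have h1 : chi N u v.asIdeal = ((normalizedFactors v.asIdeal).map (cf N u)).prod := if_neg v.ne_bot
  rw [h1, normalizedFactors_irreducible v.irreducible, normalize_eq, Multiset.map_singleton,
    Multiset.prod_singleton]
  exact dif_neg fun h => h.2.2 hv

/-- factorization of an ideal -/
theorem exists_ms (𝔞 : Ideal (𝓞 K)) (ha : 𝔞 ≠ ⊥) :
    ∃ s : Multiset (HeightOneSpectrum (𝓞 K)), 𝔞 = (s.map fun v => v.asIdeal).prod := by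
  induction 𝔞 using induction_on_prime with
  | h₁ => exact absurd rfl ha
  | h₂ x hx =>
    refine ⟨0, ?_⟩
    rw [Multiset.map_zero, Multiset.prod_zero]
    exact isUnit_iff_eq_one.1 hx
  | h₃ a p ha0 hp ih =>
    obtain ⟨s, hs⟩ := ih ha0
    have hpp : p.IsPrime := Ideal.isPrime_of_prime hp
    refine ⟨(⟨p, hpp, hp.ne_zero⟩ : HeightOneSpectrum (𝓞 K)) ::ₘ s, ?_⟩
    rw [Multiset.map_cons, Multiset.prod_cons, ← hs]

theorem chi_ms (N : ℕ) (u : HeightOneSpectrum (𝓞 K) → k) (s : Multiset (HeightOneSpectrum (𝓞 K))) :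
    chi N u (s.map fun v => v.asIdeal).prod = (s.map fun v => chi N u v.asIdeal).prod := by
  rw [map_multiset_prod, Multiset.map_map]
  rfl

theorem coprime_prime {N : ℕ} {v : HeightOneSpectrum (𝓞 K)} :
    IsCoprime v.asIdeal (Ideal.span {(N : 𝓞 K)}) ↔ (N : 𝓞 K) ∉ v.asIdeal := by
  rw [Ideal.isCoprime_iff_sup_eq]
  constructor
  · intro h hN
    have h1 : Ideal.span {(N : 𝓞 K)} ≤ v.asIdeal := by
      rw [Ideal.span_le, Set.singleton_subset_iff]
      exact hN
    rw [sup_eq_left.2 h1] at h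
    exact v.isPrime.ne_top h
  · intro h
    refine v.isMaximal.out.2 _ (left_lt_sup.2 fun h1 => h ?_)
    exact h1 (Ideal.mem_span_singleton_self _)

theorem coprime_iff {N : ℕ} (s : Multiset (HeightOneSpectrum (𝓞 K))) :
    IsCoprime (s.map fun v => v.asIdeal).prod (Ideal.span {(N : 𝓞 K)}) ↔
      ∀ v ∈ s, (N : 𝓞 K) ∉ v.asIdeal := by
  induction s using Multiset.induction with
  | empty =>
    rw [Multiset.map_zero, Multiset.prod_zero]
    exact ⟨fun _ v hv => absurd hv (Multiset.notMem_zero v), fun _ => isCoprime_one_left⟩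
  | cons a s ih =>
    rw [Multiset.map_cons, Multiset.prod_cons, IsCoprime.mul_left_iff, ih, coprime_prime]
    constructor
    · rintro ⟨h1, h2⟩ v hv
      rcases Multiset.mem_cons.1 hv with h3 | h3
      · rw [h3]; exact h1
      · exact h2 v h3
    · intro h
      exact ⟨h a (Multiset.mem_cons_self a s), fun v hv => h v (Multiset.mem_cons_of_mem hv)⟩

theorem chi_ne_zero_iff (N : ℕ) {u : HeightOneSpectrum (𝓞 K) → k} (hu : ∀ v, u v ≠ 0)
    (s : Multiset (HeightOneSpectrum (𝓞 K))) :
    chi N u (s.map fun v => v.asIdeal).prod ≠ 0 ↔ ∀ v ∈ s, (N : 𝓞 K) ∉ v.asIdeal := by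
  rw [chi_ms, Ne, Multiset.prod_eq_zero_iff]
  constructor
  · intro h v hv hN
    exact h (Multiset.mem_map.2 ⟨v, hv, chi_of_mem u hN⟩)
  · intro h h0
    obtain ⟨v, hv, hv0⟩ := Multiset.mem_map.1 h0
    rw [chi_of_notMem u (h v hv)] at hv0
    exact hu v hv0

theorem chi_eq (N : ℕ) (u : HeightOneSpectrum (𝓞 K) → k)
    (s : Multiset (HeightOneSpectrum (𝓞 K))) (hs : ∀ v ∈ s, (N : 𝓞 K) ∉ v.asIdeal) :
    chi N u (s.map fun v => v.asIdeal).prod = (s.map u).prod := by
  rw [chi_ms]
  congr 1
  exact Multiset.map_congr rfl fun v hv => chi_of_notMem u (hs v hv)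

theorem count_ms (w : HeightOneSpectrum (𝓞 K)) (s : Multiset (HeightOneSpectrum (𝓞 K))) :
    FractionalIdeal.count K w (((s.map fun v => v.asIdeal).prod : Ideal (𝓞 K)) :
      FractionalIdeal (nonZeroDivisors (𝓞 K)) K) =
      (s.map fun v => (Finsupp.single v (1 : ℤ) : Dv K)).sum w := by
  classical
  induction s using Multiset.induction with
  | empty =>
    rw [Multiset.map_zero, Multiset.prod_zero, Multiset.map_zero, Multiset.sum_zero,
      Ideal.one_eq_top, FractionalIdeal.coeIdeal_top, FractionalIdeal.count_one]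
    rfl
  | cons a s ih =>
    have hs0 : (s.map fun v : HeightOneSpectrum (𝓞 K) => v.asIdeal).prod ≠ 0 := by
      intro h0
      rw [Multiset.prod_eq_zero_iff] at h0
      obtain ⟨v, -, hv⟩ := Multiset.mem_map.1 h0
      exact v.ne_bot hv
    rw [Multiset.map_cons, Multiset.prod_cons, Multiset.map_cons, Multiset.sum_cons,
      FractionalIdeal.coeIdeal_mul, FractionalIdeal.count_mul, ih, FractionalIdeal.count_maximal,
      Finsupp.add_apply, Finsupp.single_apply]
    · exact FractionalIdeal.coeIdeal_ne_zero.2 a.ne_bot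
    · exact FractionalIdeal.coeIdeal_ne_zero.2 hs0

theorem prin_ms (x : 𝓞 K) (xu : Kˣ) (hx : (xu : K) = x) (s : Multiset (HeightOneSpectrum (𝓞 K)))
    (hs : Ideal.span {x} = (s.map fun v => v.asIdeal).prod) :
    prin xu = (s.map fun v => (Finsupp.single v (1 : ℤ) : Dv K)).sum := by
  ext w
  rw [prin_apply, ← count_ms, ← hs, hx, FractionalIdeal.coeIdeal_span_singleton]

end chi

section
variable {K : Type} [Field K] [NumberField K]

/-- the restriction of an arithmetic Frobenius element (as in `Pool.Agent.H500.ML`) -/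
theorem isFrob_restrict {v : HeightOneSpectrum (𝓞 K)} {σ : GK K} (h : IsFrob v σ)
    (M : IntermediateField K (AlgebraicClosure K)) [NumberField M] [Normal K M] :
    IsFrobenius v (AlgEquiv.restrictNormalHom M σ) := by
  obtain ⟨P, hP, hPv, hσ⟩ := h
  have hPp : P.IsPrime := hP.isPrime
  set w : Ideal (𝓞 M) := P.comap (algebraMap (𝓞 M) (𝓞 (AlgebraicClosure K))) with hw
  have hwp : w.IsPrime := Ideal.comap_isPrime _ _
  have hwv : w.comap (algebraMap (𝓞 K) (𝓞 M)) = v.asIdeal := by
    rw [← hPv, hw, Ideal.comap_comap, ← IsScalarTower.algebraMap_eq]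
  have hw0 : w ≠ ⊥ := by
    intro h
    apply v.ne_bot
    rw [← hwv, h, ← RingHom.ker_eq_comap_bot]
    exact (RingHom.injective_iff_ker_eq_bot _).1 (FaithfulSMul.algebraMap_injective (𝓞 K) (𝓞 M))
  refine ⟨w, hwp.isMaximal hw0, hwv, fun x => ?_⟩
  have hgx : IsIntegral ℤ (AlgEquiv.restrictNormalHom M σ (x : M)) := x.2.map _
  obtain ⟨y, hy⟩ : ∃ y : 𝓞 M, (y : M) = AlgEquiv.restrictNormalHom M σ (x : M) :=
    ⟨⟨_, hgx⟩, rfl⟩
  refine ⟨y - x ^ Ideal.absNorm v.asIdeal, ?_, by rw [← hy]; rfl⟩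
  rw [hw, Ideal.mem_comap, map_sub, map_pow]
  have h1 : algebraMap (𝓞 M) (𝓞 (AlgebraicClosure K)) y =
      σ • algebraMap (𝓞 M) (𝓞 (AlgebraicClosure K)) x := by
    apply RingOfIntegers.ext
    have h2 : ((AlgEquiv.restrictNormalHom M σ (x : M) : M) : AlgebraicClosure K) =
        σ ((x : M) : AlgebraicClosure K) :=
      AlgEquiv.restrictNormal_commutes σ M x
    have h3 : ((algebraMap (𝓞 M) (𝓞 (AlgebraicClosure K)) y : 𝓞 (AlgebraicClosure K)) :
        AlgebraicClosure K) = ((y : M) : AlgebraicClosure K) := rfl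
    rw [h3, hy, h2]
    rfl
  rw [h1]
  exact hσ _

/-- the field fixed by an open normal subgroup -/
theorem exists_field (H : Subgroup (GK K)) [H.Normal] (hH : IsOpen (H : Set (GK K))) :
    ∃ M : IntermediateField K (AlgebraicClosure K), FiniteDimensional K M ∧ IsGalois K M ∧
      M.fixingSubgroup = H := by
  have hcl : IsClosed (H : Set (GK K)) := Subgroup.isClosed_of_isOpen H hH
  let H' : ClosedSubgroup (GK K) := ⟨H, hcl⟩
  have h1 : (IntermediateField.fixedField (H : Subgroup (GK K))).fixingSubgroup = H :=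
    InfiniteGalois.fixingSubgroup_fixedField H'
  refine ⟨IntermediateField.fixedField H, ?_, ?_, h1⟩
  · rw [← InfiniteGalois.isOpen_iff_finite, h1]
    exact hH
  · rw [← InfiniteGalois.normal_iff_isGalois, h1]
    infer_instance

/-- finite subgroups of `kˣ` embed in `ℂˣ` -/
theorem exists_emb {k : Type} [Field k] (C : Subgroup kˣ) [Finite C] :
    ∃ ι : C →* ℂˣ, Function.Injective ι := by
  have hc : IsCyclic C := inferInstance
  have hm : NeZero (Nat.card C) := ⟨Nat.card_pos.ne'⟩
  have h1 : Nat.card C = Nat.card (rootsOfUnity (Nat.card C) ℂ) :=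
    (Complex.card_rootsOfUnity _).symm
  refine ⟨(rootsOfUnity (Nat.card C) ℂ).subtype.comp (mulEquivOfCyclicCardEq h1).toMonoidHom, ?_⟩
  exact Subtype.val_injective.comp (mulEquivOfCyclicCardEq h1).injective

end

theorem main : Pool.Agent.H500.AS.S_ARS → Pool.Agent.H500.AS.S_Bridge := by
  intro hARS K _ _ N k _ θ hN hopen hin
  classical
  obtain ⟨M, hfd, hgal, hfix⟩ := exists_field θ.ker hopen
  have hnf : NumberField M := NumberField.of_module_finite K M
  set res : GK K →* (M ≃ₐ[K] M) := AlgEquiv.restrictNormalHom M with hres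
  have hsurj : Function.Surjective res := AlgEquiv.restrictNormalHom_surjective _
  have hker : res.ker = θ.ker := by
    rw [hres, IntermediateField.restrictNormalHom_ker, hfix]
  -- the image
  set C : Subgroup kˣ := θ.range with hC
  obtain ⟨θC, hθC⟩ : ∃ θC : (M ≃ₐ[K] M) →* C, ∀ g, θC (res g) = θ.rangeRestrict g :=
    ⟨MonoidHom.liftOfSurjective _ hsurj ⟨θ.rangeRestrict, by
      rw [hker, MonoidHom.ker_rangeRestrict]⟩, fun g =>
      MonoidHom.liftOfRightInverse_comp_apply _ _ _ ⟨θ.rangeRestrict, _⟩ g⟩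
  have hθC' : ∀ g, ((θC (res g) : C) : kˣ) = θ g := fun g => by
    rw [hθC]
    rfl
  have hfinC : Finite C := by
    have hs : Function.Surjective θC := by
      rintro ⟨c, g, rfl⟩
      exact ⟨res g, Subtype.ext (hθC' g)⟩
    exact Finite.of_surjective θC hs
  obtain ⟨ι, hι⟩ := exists_emb C
  set ψ : (M ≃ₐ[K] M) →* ℂˣ := ι.comp θC with hψ
  -- ramification
  have hunr : ∀ v : HeightOneSpectrum (𝓞 K), (N : 𝓞 K) ∉ v.asIdeal → Unramified M v := by
    intro v hv
    apply unramified_of_inert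
    intro σ hσ i
    have h1 : σ ∈ M.fixingSubgroup := by
      rw [hfix]
      exact hin v hv σ hσ
    apply AlgHom.ext
    intro z
    rw [act_apply]
    change σ (i z) = i z
    have h2 : i z ∈ M := by
      have h3 : i.fieldRange = M := AlgHom.fieldRange_of_normal i
      have h4 : i z ∈ i.fieldRange := ⟨z, rfl⟩
      exact h3.le h4
    exact (IntermediateField.mem_fixingSubgroup_iff M σ).1 h1 _ h2
  have hram : Ram K M N := by
    intro v hv
    by_contra h
    exact hv (hunr v h)
  obtain ⟨e, he⟩ := hARS K M ψ N hN hram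
  -- the character
  set u : HeightOneSpectrum (𝓞 K) → k := fun v => (((θC (frob M v) : C) : kˣ) : k) with hu
  have hu0 : ∀ v, u v ≠ 0 := fun v => Units.ne_zero _
  have hums : ∀ s : Multiset (HeightOneSpectrum (𝓞 K)), (s.map u).prod =
      ((((s.map fun v => θC (frob M v)).prod : C) : kˣ) : k) := by
    intro s
    induction s using Multiset.induction with
    | empty => simp
    | cons a s ih =>
      rw [Multiset.map_cons, Multiset.prod_cons, ih, Multiset.map_cons, Multiset.prod_cons]
      push_cast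
      rfl
  refine ⟨chi N u, e + 1, ?_, ?_, ?_, ?_⟩
  · intro 𝔞 h𝔞
    obtain ⟨s, rfl⟩ := exists_ms 𝔞 h𝔞
    rw [chi_ne_zero_iff N hu0, coprime_iff]
  · intro x hx
    obtain ⟨hx0, hxN, hxpos⟩ := hx
    have hspan : Ideal.span {x} ≠ ⊥ := by
      rw [Ne, Ideal.span_singleton_eq_bot]
      exact hx0
    obtain ⟨s, hs⟩ := exists_ms (Ideal.span {x}) hspan
    have hN1 : (N : 𝓞 K) ∣ x - 1 := by
      refine dvd_trans ?_ hxN
      push_cast
      exact dvd_pow_self _ (Nat.succ_ne_zero e)
    have hcop : ∀ v ∈ s, (N : 𝓞 K) ∉ v.asIdeal := by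
      intro v hv hNv
      have h1 : x ∈ v.asIdeal := by
        have h2 : v.asIdeal ∣ Ideal.span {x} := by
          rw [hs]
          exact Multiset.dvd_prod (Multiset.mem_map_of_mem _ hv)
        exact Ideal.dvd_iff_le.1 h2 (Ideal.mem_span_singleton_self x)
      have h3 : x - 1 ∈ v.asIdeal := v.asIdeal.mem_of_dvd hN1 hNv
      apply v.isPrime.ne_top
      rw [Ideal.eq_top_iff_one]
      have h4 := v.asIdeal.sub_mem h1 h3
      rwa [sub_sub_cancel] at h4
    have hxK : (x : K) ≠ 0 := by
      intro h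
      exact hx0 (RingOfIntegers.ext h)
    set xu : Kˣ := Units.mk0 (x : K) hxK with hxu
    have hray : xu ∈ Ray K (N ^ e) := by
      refine ⟨?_, hxpos⟩
      intro v hv
      obtain ⟨y, hy⟩ := hxN
      have h1 : (xu : K) - 1 = ((N ^ e : ℕ) : K) * (((N : 𝓞 K) * y : 𝓞 K) : K) := by
        have h2 : (x : K) - 1 = ((x - 1 : 𝓞 K) : K) := by push_cast; rfl
        rw [hxu, Units.val_mk0, h2, hy]
        push_cast
        ring
      rw [h1, map_mul]
      have h3 : v.valuation K (((N : 𝓞 K) * y : 𝓞 K) : K) ≤ 1 := v.valuation_le_one _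
      exact mul_le_of_le_one_right' h3
    have h1 := he xu hray
    rw [prin_ms x xu rfl s hs, map_multiset_sum, Multiset.map_map] at h1
    have h2 : (s.map fun v => ψ (frob M v)).prod = 1 := by
      have h3 : ∀ t : Multiset (HeightOneSpectrum (𝓞 K)),
          (t.map ((art ψ : Dv K →+ Additive ℂˣ) ∘ fun v => (Finsupp.single v (1 : ℤ) : Dv K))).sum =
            Additive.ofMul (t.map fun v => ψ (frob M v)).prod := by
        intro t
        induction t using Multiset.induction with
        | empty => simp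
        | cons a t ih =>
          rw [Multiset.map_cons, Multiset.sum_cons, ih, Multiset.map_cons, Multiset.prod_cons,
            ofMul_mul, Function.comp_apply, art_single, one_smul]
      have h4 := h3 s
      rw [h1] at h4
      exact (Additive.ofMul.injective (h4.symm.trans ofMul_one.symm))
    have h5 : (s.map fun v => θC (frob M v)).prod = 1 := by
      apply hι
      rw [map_multiset_prod, Multiset.map_map, map_one]
      exact h2
    rw [hs, chi_eq N u s hcop, hums, h5]
    rfl
  · intro v hv σ hσ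
    rw [chi_of_notMem u hv]
    have h1 : IsFrobenius v (res σ) := isFrob_restrict hσ M
    obtain ⟨h, hh⟩ := isFrobenius_conj (hunr v hv) h1 (frob_spec v)
    have h2 : θC (frob M v) = θC (res σ) := by
      rw [hh, map_mul, map_mul, map_inv, mul_comm, mul_inv_cancel_left]
    rw [hu]
    simp only
    rw [h2, hθC']
  · intro 𝔞 h𝔞
    have h𝔞0 : 𝔞 ≠ ⊥ := by
      rintro rfl
      exact h𝔞 (map_zero _)
    obtain ⟨s, rfl⟩ := exists_ms 𝔞 h𝔞0
    rw [chi_eq N u s ((chi_ne_zero_iff N hu0 s).1 h𝔞), hums]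
    obtain ⟨σ, hσ⟩ := ((s.map fun v => θC (frob M v)).prod : C).2
    exact ⟨σ, by rw [hσ]⟩

end Pool.Agent.H643.AS.Bridge
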