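import Pool.Agent.H500.AS.Stm

set_option autoImplicit false
set_option linter.unusedSectionVars false
set_option linter.deprecated false

/-!
# Task AS 7 (helper643, for helper500), first part: no inertia implies unramified
-/

namespace Pool.Agent.H643.AS.Bridge

open NumberField IsDedekindDomain Pool.Agent.Q5.BR Pool.Agent.Q92.AR Pool.Agent.Q92.PA
open Pool.Agent.W353.NF
open Pool.Agent.W401.Cheb (GK IsFrob IsInert)

section
variable {K F : Type} [Field K] [NumberField K] [Field F] [NumberField F] [Algebra K F]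

theorem idx_pos {v : HeightOneSpectrum (𝓞 K)} {w : HeightOneSpectrum (𝓞 F)}
    (hw : w.under (𝓞 K) = v) : Ideal.ramificationIdx' v.asIdeal w.asIdeal ≠ 0 := by
  have hlo : w.asIdeal.LiesOver v.asIdeal := ⟨by rw [← hw]; rfl⟩
  have := w.isPrime
  exact Ideal.IsDedekindDomain.ramificationIdx'_ne_zero_of_liesOver _ v.ne_bot

theorem two_le_idx {v : HeightOneSpectrum (𝓞 K)} {w : HeightOneSpectrum (𝓞 F)}
    (hw : w.under (𝓞 K) = v)
    (h : v.asIdeal.map (algebraMap (𝓞 K) (𝓞 F)) ≤ w.asIdeal ^ 2) :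
    2 ≤ Ideal.ramificationIdx' v.asIdeal w.asIdeal := by
  have h0 := idx_pos hw
  unfold Ideal.ramificationIdx' at h0 ⊢
  refine le_csSup ?_ h
  by_contra hb
  exact h0 (Nat.sSup_of_not_bddAbove hb)

theorem sum_idx (v : HeightOneSpectrum (𝓞 K)) :
    ∑ w ∈ above F v, Ideal.ramificationIdx' v.asIdeal w.asIdeal * rdeg K w =
      Module.finrank K F := by
  have hvm : v.asIdeal.IsMaximal := v.isMaximal
  rw [← Ideal.sum_ramification_inertia (𝓞 F) K F v.ne_bot]
  refine Finset.sum_bij (fun w _ => w.asIdeal) ?_ ?_ ?_ ?_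
  · intro w hw
    rw [IsDedekindDomain.mem_primesOverFinset_iff v.ne_bot]
    refine ⟨w.isPrime, ⟨?_⟩⟩
    rw [← mem_above.1 hw]
    rfl
  · intro w _ w' _ h
    exact HeightOneSpectrum.ext h
  · intro P hP
    rw [IsDedekindDomain.mem_primesOverFinset_iff v.ne_bot] at hP
    obtain ⟨hP1, hP2⟩ := hP
    refine ⟨⟨P, hP1, fun h => v.ne_bot ?_⟩, mem_above.2 (HeightOneSpectrum.ext ?_), rfl⟩
    · rw [hP2.over, h]
      rw [eq_bot_iff]
      intro x hx
      rw [Ideal.mem_bot]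
      have hx2 : algebraMap (𝓞 K) (𝓞 F) x = 0 := hx
      exact (map_eq_zero_iff _ (FaithfulSMul.algebraMap_injective (𝓞 K) (𝓞 F))).1 hx2
    · exact hP2.over.symm
  · intro w hw
    unfold rdeg
    rw [mem_above.1 hw]

theorem rdeg_pos (w : HeightOneSpectrum (𝓞 F)) : 0 < rdeg K w := by
  have hwo : w.asIdeal.LiesOver (w.under (𝓞 K)).asIdeal := ⟨rfl⟩
  have hvm : (w.under (𝓞 K)).asIdeal.IsMaximal := (w.under (𝓞 K)).isMaximal
  have hwm : w.asIdeal.IsMaximal := w.isMaximal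
  unfold rdeg
  exact Ideal.inertiaDeg'_pos _ _

theorem unramified_of_sum {v : HeightOneSpectrum (𝓞 K)}
    (h : ∑ w ∈ above F v, rdeg K w = Module.finrank K F) : Unramified F v := by
  intro w hw hle
  have h1 := sum_idx (F := F) v
  rw [← h] at h1
  have hle' : ∀ w ∈ above F v, rdeg K w ≤ Ideal.ramificationIdx' v.asIdeal w.asIdeal * rdeg K w :=
    fun w hw => Nat.le_mul_of_pos_left _ (Nat.pos_of_ne_zero (idx_pos (mem_above.1 hw)))
  have h2 := (Finset.sum_eq_sum_iff_of_le hle').1 h1.symm w (mem_above.2 hw)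
  have h3 := two_le_idx hw hle
  have h4 := rdeg_pos (K := K) w
  nlinarith

/-- **No inertia implies unramified.** -/
theorem unramified_of_inert {v : HeightOneSpectrum (𝓞 K)}
    (h : ∀ σ : GK K, IsInert v σ → ∀ i : F →ₐ[K] AlgebraicClosure K, act K F σ i = i) :
    Unramified F v := by
  classical
  obtain ⟨σ, Q, hQm, hQv, hQ⟩ := Pool.Agent.W401.Frob.exists_frob v
  have hinj : Function.Injective (rd (F := F) Q) := by
    intro i j hij
    obtain ⟨τ, hτ, hτQ⟩ := exists_inert hQm i j (rd_eq_iff.1 hij)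
    rw [← hτ, h τ ⟨Q, hQm, hQv, hτQ⟩ i]
  apply unramified_of_sum
  have h1 := card_redn (F := F) v σ hQm hQv hQ 0
  have h2 : ∑ w ∈ above F v, (if rdeg K w ∣ 0 then rdeg K w else 0) = ∑ w ∈ above F v, rdeg K w :=
    Finset.sum_congr rfl fun w _ => if_pos (dvd_zero _)
  rw [h2] at h1
  rw [← h1]
  have h3 : Nat.card (F →ₐ[K] AlgebraicClosure K) = Module.finrank K F := by
    rw [Nat.card_eq_fintype_card, AlgHom.card]
  rw [← h3]
  symm
  refine Nat.card_eq_of_bijective (fun i : F →ₐ[K] AlgebraicClosure K => ⟨rd Q i, ⟨i, rfl⟩, fun a => by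
    rw [pow_zero, pow_one]⟩) ⟨fun i j hij => hinj (congrArg Subtype.val hij), ?_⟩
  rintro ⟨r, ⟨i, rfl⟩, hr⟩
  exact ⟨i, rfl⟩

end

end Pool.Agent.H643.AS.Bridge
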